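import Mathlib
import Pool.Agent.Helper496.UCorr.Star
import Pool.Agent.Helper496.UCorr.Fin3

set_option autoImplicit false

namespace Pool.Agent.Results.MP_f51d55_co.ThreeElements

open UCorr

/-- `L`, a bijection from the finite poset `X` onto `Fin (card X)` (the position of each element),
is a linear extension of `X`: it is strictly increasing along the order of `X`. -/
def IsLinExt {X : Type} [Fintype X] [PartialOrder X] (L : X ≃ Fin (Fintype.card X)) : Prop :=
  ∀ a b : X, a < b → L a < L b

/-- The restriction of `L` to `T` (`T` is embedded into the ground set `X` by `ι`),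
as a binary relation on `T`: `x` is below `y` in `L`. -/
def restr {T X : Type} [Fintype X] (ι : T ↪ X) (L : X ≃ Fin (Fintype.card X)) : T → T → Prop :=
  fun x y => L (ι x) < L (ι y)

/-- The probability, for a uniformly random linear extension `L` of `X`, that the restriction of
`L` to `T` belongs to `U`. -/
noncomputable def Pr {T X : Type} [Fintype X] [PartialOrder X] (ι : T ↪ X)
    (U : Set (T → T → Prop)) : ℝ :=
  (Nat.card {L : X ≃ Fin (Fintype.card X) // IsLinExt L ∧ restr ι L ∈ U} : ℝ) /
    (Nat.card {L : X ≃ Fin (Fintype.card X) // IsLinExt L} : ℝ)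

/-- `(U, V)` is universally non-negatively correlated: `Pr (U ∩ V) ≥ Pr U * Pr V` for every finite
poset `X` whose ground set contains `T`. -/
def UnivCorr {T : Type} (U V : Set (T → T → Prop)) : Prop :=
  ∀ (X : Type) [Fintype X] [PartialOrder X] (ι : T ↪ X), Pr ι U * Pr ι V ≤ Pr ι (U ∩ V)

/-- The set `Λ(T)` of the (strict) linear orderings of `T`. -/
def LinOrd (T : Type) : Set (T → T → Prop) :=
  {r | (∀ a, ¬ r a a) ∧ (∀ a b c, r a b → r b c → r a c) ∧ (∀ a b, a ≠ b → r a b ∨ r b a)}

/-! ### proofs -/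

/-- number of linear extensions with restriction in `U` -/
noncomputable def cnt {T X : Type} [Fintype X] [PartialOrder X] (ι : T ↪ X)
    (U : Set (T → T → Prop)) : ℕ :=
  Nat.card {L : X ≃ Fin (Fintype.card X) // IsLinExt L ∧ restr ι L ∈ U}

theorem restr_mem {T X : Type} [Fintype X] (ι : T ↪ X) (L : X ≃ Fin (Fintype.card X)) :
    restr ι L ∈ LinOrd T := by
  refine ⟨fun a => lt_irrefl _, fun a b c h1 h2 => lt_trans h1 h2, fun a b h => ?_⟩
  have : L (ι a) ≠ L (ι b) := fun he => h (ι.injective (L.injective he))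
  exact lt_or_gt_of_ne this

theorem cnt_lin {T X : Type} [Fintype X] [PartialOrder X] (ι : T ↪ X) :
    cnt ι (LinOrd T) = Nat.card {L : X ≃ Fin (Fintype.card X) // IsLinExt L} := by
  unfold cnt
  refine Nat.card_congr (Equiv.subtypeEquivRight fun L => ?_)
  exact ⟨fun h => h.1, fun h => ⟨h, restr_mem ι L⟩⟩

theorem cnt_mono {T X : Type} [Fintype X] [PartialOrder X] (ι : T ↪ X)
    (U V : Set (T → T → Prop)) (h : U ⊆ V) : cnt ι U ≤ cnt ι V :=
  natcard_mono _ _ fun _ hL => ⟨hL.1, h hL.2⟩

theorem cnt_le {T X : Type} [Fintype X] [PartialOrder X] (ι : T ↪ X)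
    (U : Set (T → T → Prop)) : cnt ι U ≤ cnt ι (LinOrd T) :=
  natcard_mono _ _ fun L hL => ⟨hL.1, restr_mem ι L⟩

theorem pr_iff {T X : Type} [Fintype X] [PartialOrder X] (ι : T ↪ X)
    (U V : Set (T → T → Prop)) :
    Pr ι U * Pr ι V ≤ Pr ι (U ∩ V) ↔
      cnt ι U * cnt ι V ≤ cnt ι (U ∩ V) * cnt ι (LinOrd T) := by
  have hU := cnt_le ι U
  have e : ∀ W : Set (T → T → Prop), Pr ι W = (cnt ι W : ℝ) / (cnt ι (LinOrd T) : ℝ) := by
    intro W
    rw [cnt_lin]
    rfl
  rw [e, e, e]
  rcases Nat.eq_zero_or_pos (cnt ι (LinOrd T)) with h0 | h0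
  · have : cnt ι U = 0 := by omega
    simp [h0, this]
  · have hp : (0 : ℝ) < (cnt ι (LinOrd T) : ℝ) := by exact_mod_cast h0
    rw [div_mul_div_comm, div_le_div_iff₀ (by positivity) hp]
    constructor
    · intro h
      have h' : (cnt ι U : ℝ) * cnt ι V ≤ cnt ι (U ∩ V) * cnt ι (LinOrd T) := by
        have := mul_le_mul_of_nonneg_left h (le_of_lt (inv_pos.2 hp))
        field_simp at this
        nlinarith
      exact_mod_cast h'
    · intro h
      have h' : (cnt ι U : ℝ) * cnt ι V ≤ cnt ι (U ∩ V) * cnt ι (LinOrd T) := by exact_mod_cast h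
      nlinarith

theorem univ_iff {T : Type} (U V : Set (T → T → Prop)) :
    UnivCorr U V ↔ ∀ (X : Type) [Fintype X] [PartialOrder X] (ι : T ↪ X),
      cnt ι U * cnt ι V ≤ cnt ι (U ∩ V) * cnt ι (LinOrd T) := by
  unfold UnivCorr
  constructor
  · intro h X _ _ ι
    exact (pr_iff ι U V).1 (h X ι)
  · intro h X _ _ ι
    exact (pr_iff ι U V).2 (h X ι)

theorem univ_of_subset {T : Type} (U V : Set (T → T → Prop)) (h : U ⊆ V) : UnivCorr U V := by
  rw [univ_iff]
  intro X _ _ ι
  rw [Set.inter_eq_left.2 h]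
  exact Nat.mul_le_mul_left _ (cnt_le ι V)

theorem univ_symm {T : Type} (U V : Set (T → T → Prop)) (h : UnivCorr U V) : UnivCorr V U := by
  intro X _ _ ι
  rw [mul_comm, Set.inter_comm]
  exact h X ι

/-- star events, first form -/
theorem star_below {T : Type} (z : T) (U V : Set (Set T))
    (hU : ∀ A B : Set T, A ⊆ B → A ∈ U → B ∈ U) (hV : ∀ A B : Set T, A ⊆ B → A ∈ V → B ∈ V) :
    UnivCorr {r | r ∈ LinOrd T ∧ {x | r x z} ∈ U} {r | r ∈ LinOrd T ∧ {x | r x z} ∈ V} := by
  rw [univ_iff]
  intro X _ _ ι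
  have h := star_count (ι z) {A : Set X | ι ⁻¹' A ∈ U} {A : Set X | ι ⁻¹' A ∈ V}
    (fun A B hAB hA => hU _ _ (Set.preimage_mono hAB) hA)
    (fun A B hAB hA => hV _ _ (Set.preimage_mono hAB) hA)
  have e : ∀ W : Set (Set T), cnt ι {r | r ∈ LinOrd T ∧ {x | r x z} ∈ W} =
      Nat.card {L : X ≃ Fin (Fintype.card X) //
        (∀ a b, a < b → L a < L b) ∧ {x | L x < L (ι z)} ∈ {A : Set X | ι ⁻¹' A ∈ W}} := by
    intro W
    refine Nat.card_congr (Equiv.subtypeEquivRight fun L => ?_)
    constructor
    · rintro ⟨h1, -, h3⟩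
      exact ⟨h1, h3⟩
    · rintro ⟨h1, h3⟩
      exact ⟨h1, restr_mem ι L, h3⟩
  have e2 : cnt ι ({r | r ∈ LinOrd T ∧ {x | r x z} ∈ U} ∩ {r | r ∈ LinOrd T ∧ {x | r x z} ∈ V}) =
      Nat.card {L : X ≃ Fin (Fintype.card X) //
        (∀ a b, a < b → L a < L b) ∧ {x | L x < L (ι z)} ∈ {A : Set X | ι ⁻¹' A ∈ U} ∧
          {x | L x < L (ι z)} ∈ {A : Set X | ι ⁻¹' A ∈ V}} := by
    refine Nat.card_congr (Equiv.subtypeEquivRight fun L => ?_)
    constructor
    · rintro ⟨h1, ⟨-, h3⟩, -, h4⟩
      exact ⟨h1, h3, h4⟩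
    · rintro ⟨h1, h3, h4⟩
      exact ⟨h1, ⟨restr_mem ι L, h3⟩, restr_mem ι L, h4⟩
  rw [e, e, e2, cnt_lin]
  exact h

theorem linOrd_flip {T : Type} (r : T → T → Prop) :
    (fun a b => r b a) ∈ LinOrd T ↔ r ∈ LinOrd T := by
  constructor
  · rintro ⟨h1, h2, h3⟩
    exact ⟨h1, fun a b c h h' => h2 c b a h' h, fun a b h => (h3 a b h).symm⟩
  · rintro ⟨h1, h2, h3⟩
    exact ⟨h1, fun a b c h h' => h2 c b a h' h, fun a b h => (h3 a b h).symm⟩

theorem cnt_flip {T X : Type} [Fintype X] [PartialOrder X] (ι : T ↪ X)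
    (W : Set (T → T → Prop)) :
    cnt ι {r | (fun a b => r b a) ∈ W} =
      cnt (X := Xᵒᵈ) (ι.trans OrderDual.toDual.toEmbedding) W := by
  unfold cnt
  refine Nat.card_congr (Equiv.subtypeEquiv
    (Equiv.equivCongr OrderDual.toDual (Fin.revPerm.trans (finCongr
      (Fintype.card_congr (OrderDual.toDual (α := X)))))) fun L => ?_)
  have hL : ∀ x : X, ((Equiv.equivCongr OrderDual.toDual (Fin.revPerm.trans (finCongr
      (Fintype.card_congr (OrderDual.toDual (α := X)))))) L) (OrderDual.toDual x) =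
      Fin.cast (Fintype.card_congr (OrderDual.toDual (α := X))) (Fin.rev (L x)) := by
    intro x
    rfl
  have hlt : ∀ x y : X, ((Equiv.equivCongr OrderDual.toDual (Fin.revPerm.trans (finCongr
      (Fintype.card_congr (OrderDual.toDual (α := X)))))) L) (OrderDual.toDual x) <
      ((Equiv.equivCongr OrderDual.toDual (Fin.revPerm.trans (finCongr
      (Fintype.card_congr (OrderDual.toDual (α := X)))))) L) (OrderDual.toDual y) ↔ L y < L x := by
    intro x y
    rw [hL, hL, Fin.cast_lt_cast, Fin.rev_lt_rev]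
  refine and_congr ?_ ?_
  · constructor
    · intro h a b hab
      exact (hlt (OrderDual.ofDual a) (OrderDual.ofDual b)).2 (h _ _ hab)
    · intro h a b hab
      exact (hlt b a).1 (h (OrderDual.toDual b) (OrderDual.toDual a) hab)
  · have : restr (ι.trans OrderDual.toDual.toEmbedding)
        ((Equiv.equivCongr OrderDual.toDual (Fin.revPerm.trans (finCongr
          (Fintype.card_congr (OrderDual.toDual (α := X)))))) L) =
        fun a b => restr ι L b a := by
      funext a b
      exact propext (hlt (ι a) (ι b))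
    rw [this]
    rfl

theorem univ_flip {T : Type} (U V : Set (T → T → Prop)) (h : UnivCorr U V) :
    UnivCorr {r | (fun a b => r b a) ∈ U} {r | (fun a b => r b a) ∈ V} := by
  rw [univ_iff] at h ⊢
  intro X _ _ ι
  have e1 : ({r : T → T → Prop | (fun a b => r b a) ∈ U} ∩ {r | (fun a b => r b a) ∈ V}) =
      {r | (fun a b => r b a) ∈ U ∩ V} := rfl
  have e2 : cnt ι (LinOrd T) = cnt ι {r : T → T → Prop | (fun a b => r b a) ∈ LinOrd T} := by
    congr 1
    ext r
    exact (linOrd_flip r).symm
  rw [e1, e2, cnt_flip, cnt_flip, cnt_flip, cnt_flip]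
  exact h Xᵒᵈ _

/-- star events, second form -/
theorem star_above {T : Type} (z : T) (U V : Set (Set T))
    (hU : ∀ A B : Set T, A ⊆ B → A ∈ U → B ∈ U) (hV : ∀ A B : Set T, A ⊆ B → A ∈ V → B ∈ V) :
    UnivCorr {r | r ∈ LinOrd T ∧ {x | r z x} ∈ U} {r | r ∈ LinOrd T ∧ {x | r z x} ∈ V} := by
  have h := univ_flip _ _ (star_below z U V hU hV)
  have e : ∀ W : Set (Set T), {r : T → T → Prop | (fun a b => r b a) ∈
      {r : T → T → Prop | r ∈ LinOrd T ∧ {x | r x z} ∈ W}} =
      {r | r ∈ LinOrd T ∧ {x | r z x} ∈ W} := by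
    intro W
    ext r
    exact and_congr (linOrd_flip r) Iff.rfl
  rw [e, e] at h
  exact h

/-! ### three elements -/

def relC {T : Type} (t : Fin 3 ≃ T) (c : Bool × Bool × Bool) : T → T → Prop :=
  fun a b => mat c (t.symm a) (t.symm b) = true

theorem mat_lin : ∀ c ∈ allCodes, (∀ i, mat c i i = false) ∧
    (∀ i j k, mat c i j = true → mat c j k = true → mat c i k = true) ∧
    (∀ i j, i ≠ j → mat c i j = true ∨ mat c j i = true) := by
  decide

theorem relC_mem {T : Type} (t : Fin 3 ≃ T) (c : Bool × Bool × Bool) (hc : c ∈ allCodes) :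
    relC t c ∈ LinOrd T := by
  obtain ⟨h1, h2, h3⟩ := mat_lin c hc
  refine ⟨fun a => ?_, fun a b d h h' => h2 _ _ _ h h', fun a b h => h3 _ _ ?_⟩
  · simp [relC, h1]
  · simpa using h

theorem relC_bad1 {T : Type} (t : Fin 3 ≃ T) : relC t (true, false, true) ∉ LinOrd T := by
  rintro ⟨h1, h2, -⟩
  have := h2 (t 0) (t 1) (t 2) (by simp [relC, mat]) (by simp [relC, mat])
  simp [relC, mat] at this

theorem relC_bad2 {T : Type} (t : Fin 3 ≃ T) : relC t (false, true, false) ∉ LinOrd T := by
  rintro ⟨h1, h2, -⟩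
  have := h2 (t 2) (t 1) (t 0) (by simp [relC, mat]) (by simp [relC, mat])
  simp [relC, mat] at this

open Classical in
theorem eq_relC {T : Type} (t : Fin 3 ≃ T) (r : T → T → Prop) (hr : r ∈ LinOrd T) :
    r = relC t (decide (r (t 0) (t 1)), decide (r (t 0) (t 2)), decide (r (t 1) (t 2))) := by
  obtain ⟨h1, h2, h3⟩ := hr
  have hasym : ∀ a b, a ≠ b → (r b a ↔ ¬ r a b) := by
    intro a b hab
    constructor
    · intro h h'
      exact h1 a (h2 a b a h' h)
    · intro h
      exact (h3 a b hab).resolve_left h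
  funext a b
  obtain ⟨i, rfl⟩ := t.surjective a
  obtain ⟨j, rfl⟩ := t.surjective b
  have h10 := hasym (t 0) (t 1) (by simp)
  have h20 := hasym (t 0) (t 2) (by simp)
  have h21 := hasym (t 1) (t 2) (by simp)
  fin_cases i <;> fin_cases j <;> simp [relC, mat, h1, h10, h20, h21]

theorem exists_code {T : Type} (t : Fin 3 ≃ T) (r : T → T → Prop) (hr : r ∈ LinOrd T) :
    ∃ c ∈ allCodes, r = relC t c := by
  classical
  refine ⟨_, ?_, eq_relC t r hr⟩
  by_contra hc
  have hall : ∀ c : Bool × Bool × Bool, c ∉ allCodes →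
      c = (true, false, true) ∨ c = (false, true, false) := by decide
  rcases hall _ hc with h | h
  · apply relC_bad1 t
    rw [← h, ← eq_relC t r hr]
    exact hr
  · apply relC_bad2 t
    rw [← h, ← eq_relC t r hr]
    exact hr

/-- the partial order given by a Boolean table -/
@[reducible] def poOf {n : ℕ} (lt : Fin n → Fin n → Bool) (irr : ∀ a, lt a a = false)
    (tr : ∀ a b c, lt a b = true → lt b c = true → lt a c = true) : PartialOrder (Fin n) where
  le a b := a = b ∨ lt a b = true
  lt a b := lt a b = true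
  le_refl a := Or.inl rfl
  le_trans a b c := by
    rintro (rfl | h) (rfl | h')
    · exact Or.inl rfl
    · exact Or.inr h'
    · exact Or.inr h
    · exact Or.inr (tr a b c h h')
  lt_iff_le_not_ge a b := by
    constructor
    · intro h
      refine ⟨Or.inr h, ?_⟩
      rintro (rfl | h')
      · rw [irr] at h; exact absurd h (by simp)
      · have := tr a b a h h'
        rw [irr] at this; exact absurd this (by simp)
    · rintro ⟨rfl | h, h'⟩
      · exact absurd (Or.inl rfl) h'
      · exact h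
  le_antisymm a b := by
    rintro (rfl | h) (h' | h')
    · rfl
    · rfl
    · exact h'.symm
    · have := tr a b a h h'
      rw [irr] at this; exact absurd this (by simp)

/-- the embedding of `T` sending `t 0, t 1, t 2` to `a, b, c` -/
def emb {T : Type} {n : ℕ} (t : Fin 3 ≃ T) (a b c : Fin n) (hab : a ≠ b) (hac : a ≠ c)
    (hbc : b ≠ c) : T ↪ Fin n where
  toFun x := ![a, b, c] (t.symm x)
  inj' := by
    have key : ∀ i j : Fin 3, ![a, b, c] i = ![a, b, c] j → i = j := by
      intro i j h
      fin_cases i <;> fin_cases j <;> simp_all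
    intro x y h
    exact t.symm.injective (key _ _ h)

theorem emb_val {T : Type} {n : ℕ} (t : Fin 3 ≃ T) (a b c : Fin n) (hab : a ≠ b) (hac : a ≠ c)
    (hbc : b ≠ c) : emb t a b c hab hac hbc (t 0) = a ∧ emb t a b c hab hac hbc (t 1) = b ∧
      emb t a b c hab hac hbc (t 2) = c := by
  refine ⟨?_, ?_, ?_⟩
  · change ![a, b, c] (t.symm (t 0)) = a
    simp
  · change ![a, b, c] (t.symm (t 1)) = b
    simp
  · change ![a, b, c] (t.symm (t 2)) = c
    simp

open Classical in
theorem cnt_poset {T : Type} {n : ℕ} (t : Fin 3 ≃ T) (lt : Fin n → Fin n → Bool)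
    (irr : ∀ a, lt a a = false)
    (tr : ∀ a b c, lt a b = true → lt b c = true → lt a c = true) (a b c : Fin n)
    (hab : a ≠ b) (hac : a ≠ c) (hbc : b ≠ c) (W : Set (T → T → Prop)) (hW : W ⊆ LinOrd T) :
    @cnt T (Fin n) _ (poOf lt irr tr) (emb t a b c hab hac hbc) W =
      dot (cvec lt a b c) (allCodes.map fun s => decide (relC t s ∈ W)) := by
  have h1 := card_exts lt irr a b c (fun p q s => decide (relC t (p, q, s) ∈ W))
  have h2 := countP_dot (fun s => decide (relC t s ∈ W))
    (by simpa using fun h => relC_bad1 t (hW h)) (by simpa using fun h => relC_bad2 t (hW h))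
    ((exts lt n (List.finRange n)).map (code a b c))
  rw [List.countP_map] at h2
  unfold cvec
  rw [← h2]
  refine Eq.trans ?_ h1
  unfold cnt
  refine Nat.card_congr (Equiv.subtypeEquiv
    (Equiv.equivCongr (Equiv.refl _) (finCongr (Fintype.card_fin n))) fun L => ?_)
  have hlt : ∀ x y : Fin n, ((Equiv.equivCongr (Equiv.refl _) (finCongr (Fintype.card_fin n))) L) x <
      ((Equiv.equivCongr (Equiv.refl _) (finCongr (Fintype.card_fin n))) L) y ↔ L x < L y := by
    intro x y
    exact Iff.rfl
  refine and_congr ?_ ?_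
  · exact Iff.rfl
  · obtain ⟨va, vb, vc⟩ := emb_val t a b c hab hac hbc
    have hr := eq_relC t (restr (emb t a b c hab hac hbc) L) (restr_mem _ L)
    have e1 : restr (emb t a b c hab hac hbc) L (t 0) (t 1) ↔ L a < L b := by
      unfold restr
      rw [va, vb]
    have e2 : restr (emb t a b c hab hac hbc) L (t 0) (t 2) ↔ L a < L c := by
      unfold restr
      rw [va, vc]
    have e3 : restr (emb t a b c hab hac hbc) L (t 1) (t 2) ↔ L b < L c := by
      unfold restr
      rw [vb, vc]
    have hr' : restr (emb t a b c hab hac hbc) L =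
        relC t (decide (L a < L b), decide (L a < L c), decide (L b < L c)) := by
      refine hr.trans ?_
      rw [decide_eq_decide.2 e1, decide_eq_decide.2 e2, decide_eq_decide.2 e3]
    rw [hr', decide_eq_true_iff, decide_eq_decide.2 (hlt a b), decide_eq_decide.2 (hlt a c),
      decide_eq_decide.2 (hlt b c)]

theorem impL_map {α : Type} (l : List α) (f g : α → Bool)
    (h : impL (l.map f) (l.map g) = true) : ∀ a ∈ l, f a = true → g a = true := by
  induction l with
  | nil => simp
  | cons a l ih =>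
    simp only [List.map_cons, impL, Bool.and_eq_true, Bool.or_eq_true, Bool.not_eq_true'] at h
    intro b hb hfb
    rcases List.mem_cons.1 hb with rfl | hb
    · rcases h.1 with h1 | h1
      · rw [h1] at hfb; exact absurd hfb (by simp)
      · exact h1
    · exact ih h.2 b hb hfb

theorem andL_map {α : Type} (l : List α) (f g : α → Bool) :
    andL (l.map f) (l.map g) = l.map fun a => f a && g a := by
  induction l with
  | nil => rfl
  | cons a l ih => simp only [List.map_cons, andL, ih]

open Classical in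
theorem ineq_of_univ {T : Type} (t : Fin 3 ≃ T) (U V : Set (T → T → Prop)) (hU : U ⊆ LinOrd T)
    (hV : V ⊆ LinOrd T) (h : UnivCorr U V) {n : ℕ} (lt : Fin n → Fin n → Bool)
    (irr : ∀ a, lt a a = false)
    (tr : ∀ a b c, lt a b = true → lt b c = true → lt a c = true) (a b c : Fin n)
    (hab : a ≠ b) (hac : a ≠ c) (hbc : b ≠ c) (w : List ℕ) (hw : cvec lt a b c = w) :
    dot w (allCodes.map fun s => decide (relC t s ∈ U)) *
      dot w (allCodes.map fun s => decide (relC t s ∈ V)) ≤
    dot w (andL (allCodes.map fun s => decide (relC t s ∈ U))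
        (allCodes.map fun s => decide (relC t s ∈ V))) *
      dot w [true, true, true, true, true, true] := by
  have h1 := (univ_iff U V).1 h
  have h2 := @h1 (Fin n) _ (poOf lt irr tr) (emb t a b c hab hac hbc)
  rw [cnt_poset t lt irr tr a b c hab hac hbc U hU, cnt_poset t lt irr tr a b c hab hac hbc V hV,
    cnt_poset t lt irr tr a b c hab hac hbc (U ∩ V) (fun r hr => hU hr.1),
    cnt_poset t lt irr tr a b c hab hac hbc (LinOrd T) (fun r hr => hr), hw] at h2
  have e1 : (allCodes.map fun s => decide (relC t s ∈ LinOrd T)) =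
      [true, true, true, true, true, true] := by
    have : (allCodes.map fun s => decide (relC t s ∈ LinOrd T)) = allCodes.map fun _ => true := by
      apply List.map_congr_left
      intro s hs
      exact decide_eq_true (relC_mem t s hs)
    rw [this]
    rfl
  have e2 : (allCodes.map fun s => @decide (relC t s ∈ U ∩ V) (Classical.propDecidable _)) =
      andL (allCodes.map fun s => decide (relC t s ∈ U))
        (allCodes.map fun s => decide (relC t s ∈ V)) := by
    rw [andL_map]
    apply List.map_congr_left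
    intro s _
    by_cases h1 : relC t s ∈ U <;> by_cases h2 : relC t s ∈ V
    · have h3 : relC t s ∈ U ∩ V := ⟨h1, h2⟩
      simp only [h1, h2, h3, decide_true, Bool.and_true]
    · have h3 : ¬ relC t s ∈ U ∩ V := fun h => h2 h.2
      simp only [h1, h2, h3, decide_true, decide_false, Bool.and_false]
    · have h3 : ¬ relC t s ∈ U ∩ V := fun h => h1 h.1
      simp only [h1, h2, h3, decide_true, decide_false, Bool.false_and]
    · have h3 : ¬ relC t s ∈ U ∩ V := fun h => h1 h.1
      simp only [h1, h2, h3, decide_false, Bool.false_and]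
  rw [e1, e2] at h2
  exact h2

theorem necessity {T : Type} (t : Fin 3 ≃ T) (U V : Set (T → T → Prop)) (hU : U ⊆ LinOrd T)
    (hV : V ⊆ LinOrd T) (h : UnivCorr U V) :
    U ⊆ V ∨ V ⊆ U ∨ ∃ x y z : T, x ≠ y ∧ x ≠ z ∧ y ≠ z ∧
      ((U = {r | r ∈ LinOrd T ∧ r x z} ∧ V = {r | r ∈ LinOrd T ∧ r y z}) ∨
       (U = {r | r ∈ LinOrd T ∧ r z x} ∧ V = {r | r ∈ LinOrd T ∧ r z y})) := by
  classical
  have sub : ∀ A B : Set (T → T → Prop), A ⊆ LinOrd T →
      impL (allCodes.map fun s => decide (relC t s ∈ A))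
        (allCodes.map fun s => decide (relC t s ∈ B)) = true → A ⊆ B := by
    intro A B hA hi r hr
    obtain ⟨c, hc, rfl⟩ := exists_code t r (hA hr)
    have := impL_map _ _ _ hi c hc (decide_eq_true hr)
    exact of_decide_eq_true this
  have star : ∀ (A : Set (T → T → Prop)) (i j : Fin 3), A ⊆ LinOrd T →
      (allCodes.map fun s => decide (relC t s ∈ A)) = matL i j →
      A = {r | r ∈ LinOrd T ∧ r (t i) (t j)} := by
    intro A i j hA hi
    have hi' : ∀ c ∈ allCodes, decide (relC t c ∈ A) = mat c i j := by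
      intro c hc
      exact List.map_inj_left.1 hi c hc
    ext r
    constructor
    · intro hr
      refine ⟨hA hr, ?_⟩
      obtain ⟨c, hc, rfl⟩ := exists_code t r (hA hr)
      have := hi' c hc
      rw [decide_eq_true hr] at this
      simpa [relC] using this.symm
    · rintro ⟨hr, hr2⟩
      obtain ⟨c, hc, rfl⟩ := exists_code t r hr
      have := hi' c hc
      have h3 : mat c i j = true := by simpa [relC] using hr2
      rw [h3] at this
      exact of_decide_eq_true this
  have nv : violB (allCodes.map fun s => decide (relC t s ∈ U))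
      (allCodes.map fun s => decide (relC t s ∈ V)) ≠ true := by
    intro hv
    unfold violB at hv
    rw [List.any_eq_true] at hv
    obtain ⟨w, hw, hb⟩ := hv
    have hb' := Nat.le_of_ble_eq_true hb
    have key : dot w (allCodes.map fun s => decide (relC t s ∈ U)) *
      dot w (allCodes.map fun s => decide (relC t s ∈ V)) ≤
        dot w (andL (allCodes.map fun s => decide (relC t s ∈ U))
        (allCodes.map fun s => decide (relC t s ∈ V))) *
      dot w [true, true, true, true, true, true] := by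
      unfold vecs at hw
      simp only [List.mem_cons, List.not_mem_nil, or_false] at hw
      rcases hw with rfl | rfl | rfl | rfl | rfl | rfl | rfl | rfl | rfl
      · exact ineq_of_univ t U V hU hV h lt5 irr5 tr5 0 1 2 (by decide) (by decide) (by decide) _ cv1
      · exact ineq_of_univ t U V hU hV h lt5 irr5 tr5 0 2 1 (by decide) (by decide) (by decide) _ cv2
      · exact ineq_of_univ t U V hU hV h lt5 irr5 tr5 1 0 2 (by decide) (by decide) (by decide) _ cv3
      · exact ineq_of_univ t U V hU hV h lt5 irr5 tr5 1 2 0 (by decide) (by decide) (by decide) _ cv4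
      · exact ineq_of_univ t U V hU hV h lt5 irr5 tr5 2 0 1 (by decide) (by decide) (by decide) _ cv5
      · exact ineq_of_univ t U V hU hV h lt5 irr5 tr5 2 1 0 (by decide) (by decide) (by decide) _ cv6
      · exact ineq_of_univ t U V hU hV h lt6 irr6 tr6 0 1 2 (by decide) (by decide) (by decide) _ cv7
      · exact ineq_of_univ t U V hU hV h lt6 irr6 tr6 1 0 2 (by decide) (by decide) (by decide) _ cv8
      · exact ineq_of_univ t U V hU hV h lt6 irr6 tr6 1 2 0 (by decide) (by decide) (by decide) _ cv9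
    omega
  have hf := fin_check
    (decide (relC t (true, true, true) ∈ U)) (decide (relC t (true, true, false) ∈ U))
    (decide (relC t (false, true, true) ∈ U)) (decide (relC t (false, false, true) ∈ U))
    (decide (relC t (true, false, false) ∈ U)) (decide (relC t (false, false, false) ∈ U))
    (decide (relC t (true, true, true) ∈ V)) (decide (relC t (true, true, false) ∈ V))
    (decide (relC t (false, true, true) ∈ V)) (decide (relC t (false, false, true) ∈ V))
    (decide (relC t (true, false, false) ∈ V)) (decide (relC t (false, false, false) ∈ V))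
  rcases hf with hf | hf | hf | ⟨x, y, z, hxy, hxz, hyz, hf | hf⟩
  · exact Or.inl (sub U V hU hf)
  · exact Or.inr (Or.inl (sub V U hV hf))
  · exact absurd hf nv
  · exact Or.inr (Or.inr ⟨t x, t y, t z, by simpa using hxy, by simpa using hxz, by simpa using hyz,
      Or.inl ⟨star U x z hU hf.1, star V y z hV hf.2⟩⟩)
  · exact Or.inr (Or.inr ⟨t x, t y, t z, by simpa using hxy, by simpa using hxz, by simpa using hyz,
      Or.inr ⟨star U z x hU hf.1, star V z y hV hf.2⟩⟩)

/-- **Main result.**
(1) For every `T` and `z ∈ T`: if `𝒰`, `𝒱` are families of subsets of `T` closed under supersets,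
then the two events that the set of elements below `z` is in `𝒰`, respectively in `𝒱`, are
universally non-negatively correlated; likewise for the set of elements above `z`.
(2) For a set `T` with three elements: `(U, V)` is universally non-negatively correlated if and only
if `U ⊆ V`, or `V ⊆ U`, or for the three elements `x, y, z` of `T` in some order
`(U, V) = ({x < z}, {y < z})` or `(U, V) = ({z < x}, {z < y})`. -/
theorem result :
    (∀ (T : Type) (z : T) (𝒰 𝒱 : Set (Set T)),
      (∀ A B : Set T, A ⊆ B → A ∈ 𝒰 → B ∈ 𝒰) → (∀ A B : Set T, A ⊆ B → A ∈ 𝒱 → B ∈ 𝒱) →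
      UnivCorr {r | r ∈ LinOrd T ∧ {x | r x z} ∈ 𝒰} {r | r ∈ LinOrd T ∧ {x | r x z} ∈ 𝒱} ∧
      UnivCorr {r | r ∈ LinOrd T ∧ {x | r z x} ∈ 𝒰} {r | r ∈ LinOrd T ∧ {x | r z x} ∈ 𝒱}) ∧
    (∀ (T : Type) [Fintype T], Fintype.card T = 3 → ∀ U V : Set (T → T → Prop),
      U ⊆ LinOrd T → V ⊆ LinOrd T →
      (UnivCorr U V ↔ U ⊆ V ∨ V ⊆ U ∨ ∃ x y z : T, x ≠ y ∧ x ≠ z ∧ y ≠ z ∧
        ((U = {r | r ∈ LinOrd T ∧ r x z} ∧ V = {r | r ∈ LinOrd T ∧ r y z}) ∨
         (U = {r | r ∈ LinOrd T ∧ r z x} ∧ V = {r | r ∈ LinOrd T ∧ r z y})))) := by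
  refine ⟨fun T z 𝒰 𝒱 hU hV => ⟨star_below z 𝒰 𝒱 hU hV, star_above z 𝒰 𝒱 hU hV⟩, ?_⟩
  intro T _ hT U V hU hV
  constructor
  · intro h
    exact necessity (Fintype.equivFinOfCardEq hT).symm U V hU hV h
  · rintro (h | h | ⟨x, y, z, -, -, -, ⟨rfl, rfl⟩ | ⟨rfl, rfl⟩⟩)
    · exact univ_of_subset U V h
    · exact univ_symm V U (univ_of_subset V U h)
    · exact star_below z {A | x ∈ A} {A | y ∈ A} (fun A B hAB hA => hAB hA)
        (fun A B hAB hA => hAB hA)
    · exact star_above z {A | x ∈ A} {A | y ∈ A} (fun A B hAB hA => hAB hA)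
        (fun A B hAB hA => hAB hA)

end Pool.Agent.Results.MP_f51d55_co.ThreeElements
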